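import Mathlib
import Pool.Agent.Helper59.PQ.Rolle

/-! Project QR, junction, LEMMA 1: sublevel sets of `P cos 2πx + Q sin 2πx`, `P`, `Q` polynomials of degree at most three.

The functions form a space of dimension eight, closed under the derivative `D`; at every point one of the derivatives of order
`0, .., 7` is at least `κ` times the norm of the coefficients (`(D^2 + 4π^2)^3` maps the space to the span of `cos`, `sin`;
compactness). Rolle and a covering. -/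

set_option autoImplicit false
open MeasureTheory Real Set
open scoped ENNReal

namespace Pool.Agent.Helper59.QR

/-- `P cos 2πx + Q sin 2πx`, `P = c 0 + c 1 x + c 2 x^2 + c 3 x^3`, `Q = c 4 + c 5 x + c 6 x^2 + c 7 x^3` -/
noncomputable def F (c : Fin 8 → ℝ) (x : ℝ) : ℝ :=
  (c 0 + c 1 * x + c 2 * x ^ 2 + c 3 * x ^ 3) * cos (2 * π * x) +
    (c 4 + c 5 * x + c 6 * x ^ 2 + c 7 * x ^ 3) * sin (2 * π * x)

/-- coefficients of the derivative -/
noncomputable def D (c : Fin 8 → ℝ) : Fin 8 → ℝ :=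
  ![c 1 + 2 * π * c 4, 2 * c 2 + 2 * π * c 5, 3 * c 3 + 2 * π * c 6, 2 * π * c 7,
    c 5 - 2 * π * c 0, 2 * c 6 - 2 * π * c 1, 3 * c 7 - 2 * π * c 2, -(2 * π * c 3)]

lemma F_der (c : Fin 8 → ℝ) (x : ℝ) : HasDerivAt (F c) (F (D c) x) x := by
  have hp : ∀ a b d e : ℝ, HasDerivAt (fun x : ℝ => a + b * x + d * x ^ 2 + e * x ^ 3)
      (b + 2 * d * x + 3 * e * x ^ 2) x := by
    intro a b d e
    have h := ((((hasDerivAt_id x).const_mul b).const_add a).add ((hasDerivAt_pow 2 x).const_mul d)).add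
      ((hasDerivAt_pow 3 x).const_mul e)
    refine (h.congr_deriv ?_)
    push_cast
    ring
  have hl : HasDerivAt (fun x : ℝ => 2 * π * x) (2 * π) x := by
    simpa using (hasDerivAt_id x).const_mul (2 * π)
  have hc := hl.cos
  have hs := hl.sin
  have h := ((hp (c 0) (c 1) (c 2) (c 3)).mul hc).add ((hp (c 4) (c 5) (c 6) (c 7)).mul hs)
  refine h.congr_deriv ?_
  simp only [F, D, Matrix.cons_val]
  ring

lemma F_lin (a b : ℝ) (c c' : Fin 8 → ℝ) (x : ℝ) : F (fun i => a * c i + b * c' i) x = a * F c x + b * F c' x := by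
  simp only [F]
  ring

lemma D_lin (a b : ℝ) (c c' : Fin 8 → ℝ) : D (fun i => a * c i + b * c' i) = fun i => a * D c i + b * D c' i := by
  funext i
  fin_cases i <;> simp [D] <;> ring

lemma Dn_smul (t : ℝ) (c : Fin 8 → ℝ) (n : ℕ) : D^[n] (t • c) = t • D^[n] c := by
  induction n generalizing c with
  | zero => rfl
  | succ n ih =>
    rw [Function.iterate_succ_apply, Function.iterate_succ_apply]
    have e : D (t • c) = t • D c := by
      have h := D_lin t 0 c c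
      have e1 : (fun i => t * c i + 0 * c i) = t • c := by
        funext i; simp
      have e2 : (fun i => t * D c i + 0 * D c i) = t • D c := by
        funext i; simp
      rw [e1, e2] at h
      exact h
    rw [e, ih]

lemma F_smul (t : ℝ) (c : Fin 8 → ℝ) (x : ℝ) : F (t • c) x = t * F c x := by
  simp only [F, Pi.smul_apply, smul_eq_mul]
  ring

/-- `D^2 + 4 π^2` -/
noncomputable def N (c : Fin 8 → ℝ) : Fin 8 → ℝ := fun i => 1 * D (D c) i + 4 * π ^ 2 * c i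

lemma N_eq (c : Fin 8 → ℝ) : N c = ![2 * c 2 + 4 * π * c 5, 6 * c 3 + 8 * π * c 6, 12 * π * c 7, 0,
    2 * c 6 - 4 * π * c 1, 6 * c 7 - 8 * π * c 2, -(12 * π * c 3), 0] := by
  funext i
  fin_cases i <;> simp [N, D] <;> ring

lemma N_comm (c : Fin 8 → ℝ) : D (N c) = N (D c) := by
  unfold N
  rw [D_lin]

lemma Dn_N (c : Fin 8 → ℝ) (n : ℕ) : D^[n] (N c) = N (D^[n] c) := by
  induction n generalizing c with
  | zero => rfl
  | succ n ih => rw [Function.iterate_succ_apply, Function.iterate_succ_apply, N_comm, ih]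

lemma Z_N {x : ℝ} {k : ℕ} {c : Fin 8 → ℝ} (h : ∀ i ≤ k + 2, F (D^[i] c) x = 0) : ∀ i ≤ k, F (D^[i] (N c)) x = 0 := by
  intro i hi
  rw [Dn_N]
  unfold N
  rw [F_lin, h i (by omega), ← Function.iterate_succ_apply' D i c, ← Function.iterate_succ_apply' D (i + 1) c,
    h (i + 1 + 1) (by omega)]
  ring

lemma cst {x a b : ℝ} (h : ∀ i ≤ 1, F (D^[i] ![a, 0, 0, 0, b, 0, 0, 0]) x = 0) : a = 0 ∧ b = 0 := by
  have h0 := h 0 (by norm_num)
  have h1 := h 1 le_rfl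
  simp only [Function.iterate_zero, id, Function.iterate_one, F, D, Matrix.cons_val] at h0 h1
  have hp := Real.pi_pos
  have e := Real.sin_sq_add_cos_sq (2 * π * x)
  have h1' : b * cos (2 * π * x) - a * sin (2 * π * x) = 0 := by
    have : 2 * π * (b * cos (2 * π * x) - a * sin (2 * π * x)) = 0 := by linarith
    rcases mul_eq_zero.1 this with h | h
    · exact absurd h (by positivity)
    · exact h
  have h0' : a * cos (2 * π * x) + b * sin (2 * π * x) = 0 := by linarith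
  constructor
  · have : a * (sin (2 * π * x) ^ 2 + cos (2 * π * x) ^ 2) = 0 := by
      linear_combination cos (2 * π * x) * h0' - sin (2 * π * x) * h1'
    rw [e] at this
    linarith
  · have : b * (sin (2 * π * x) ^ 2 + cos (2 * π * x) ^ 2) = 0 := by
      linear_combination sin (2 * π * x) * h0' + cos (2 * π * x) * h1'
    rw [e] at this
    linarith

lemma nd {x : ℝ} {c : Fin 8 → ℝ} (h : ∀ i ≤ 7, F (D^[i] c) x = 0) : c = 0 := by
  have hp := Real.pi_pos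
  have h5 := Z_N (k := 5) h
  have h3 := Z_N (k := 3) h5
  have h1 := Z_N (k := 1) h3
  have e3 : N (N (N c)) = ![-(384 * π ^ 3 * c 7), 0, 0, 0, 384 * π ^ 3 * c 3, 0, 0, 0] := by
    rw [N_eq (N (N c)), N_eq (N c), N_eq c]
    funext i
    fin_cases i <;> simp <;> ring
  rw [e3] at h1
  obtain ⟨a1, a2⟩ := cst h1
  have hc7 : c 7 = 0 := by
    rcases mul_eq_zero.1 (neg_eq_zero.1 a1) with h | h
    · exact absurd h (by positivity)
    · exact h
  have hc3 : c 3 = 0 := by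
    rcases mul_eq_zero.1 a2 with h | h
    · exact absurd h (by positivity)
    · exact h
  have e2 : N (N c) = ![-(32 * π ^ 2 * c 2), 0, 0, 0, -(32 * π ^ 2 * c 6), 0, 0, 0] := by
    rw [N_eq (N c), N_eq c, hc7, hc3]
    funext i
    fin_cases i <;> simp <;> ring
  rw [e2] at h3
  obtain ⟨b1, b2⟩ := cst (fun i hi => h3 i (by omega))
  have hc2 : c 2 = 0 := by
    rcases mul_eq_zero.1 (neg_eq_zero.1 b1) with h | h
    · exact absurd h (by positivity)
    · exact h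
  have hc6 : c 6 = 0 := by
    rcases mul_eq_zero.1 (neg_eq_zero.1 b2) with h | h
    · exact absurd h (by positivity)
    · exact h
  have e1 : N c = ![4 * π * c 5, 0, 0, 0, -(4 * π * c 1), 0, 0, 0] := by
    rw [N_eq c, hc7, hc3, hc2, hc6]
    funext i
    fin_cases i <;> simp
  rw [e1] at h5
  obtain ⟨d1, d2⟩ := cst (fun i hi => h5 i (by omega))
  have hc5 : c 5 = 0 := by
    rcases mul_eq_zero.1 d1 with h | h
    · exact absurd h (by positivity)
    · exact h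
  have hc1 : c 1 = 0 := by
    rcases mul_eq_zero.1 (neg_eq_zero.1 d2) with h | h
    · exact absurd h (by positivity)
    · exact h
  have e0 : c = ![c 0, 0, 0, 0, c 4, 0, 0, 0] := by
    funext i
    fin_cases i <;> simp [hc1, hc2, hc3, hc5, hc6, hc7]
  rw [e0] at h
  obtain ⟨f1, f2⟩ := cst (fun i hi => h i (by omega))
  rw [e0, f1, f2]
  funext i
  fin_cases i <;> simp

lemma D_cont : Continuous D := by
  refine continuous_pi fun i => ?_
  fin_cases i <;> simp only [D] <;> simp <;> fun_prop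

lemma FD_cont (n : ℕ) : Continuous fun z : ℝ × (Fin 8 → ℝ) => F (D^[n] z.2) z.1 := by
  have h1 : Continuous fun z : ℝ × (Fin 8 → ℝ) => F z.2 z.1 := by
    unfold F
    fun_prop
  have h2 : Continuous fun z : ℝ × (Fin 8 → ℝ) => (z.1, D^[n] z.2) :=
    continuous_fst.prodMk ((D_cont.iterate n).comp continuous_snd)
  exact h1.comp h2

/-- bounds for the derivatives in terms of the coefficients -/
lemma bounds {B : ℝ} (hB : 0 ≤ B) : ∃ κ L : ℝ, 0 < κ ∧ 0 < L ∧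
    (∀ x ∈ Icc (-B) B, ∀ c : Fin 8 → ℝ, κ * ‖c‖ ≤ ∑ i ∈ Finset.range 8, |F (D^[i] c) x|) ∧
    ∀ x ∈ Icc (-B) B, ∀ c : Fin 8 → ℝ, ∀ i < 9, |F (D^[i] c) x| ≤ L * ‖c‖ := by
  have hK : IsCompact (Icc (-B) B ×ˢ Metric.sphere (0 : Fin 8 → ℝ) 1) :=
    isCompact_Icc.prod (isCompact_sphere _ _)
  have hne : (Icc (-B) B ×ˢ Metric.sphere (0 : Fin 8 → ℝ) 1).Nonempty := by
    refine ⟨(0, fun _ => 1), ⟨by linarith, hB⟩, ?_⟩
    rw [mem_sphere_zero_iff_norm, pi_norm_const, norm_one]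
  have hcont : ∀ n : ℕ, Continuous fun z : ℝ × (Fin 8 → ℝ) => ∑ i ∈ Finset.range n, |F (D^[i] z.2) z.1| :=
    fun n => continuous_finsetSum _ fun i _ => (FD_cont i).abs
  obtain ⟨z, hz, hmin⟩ := hK.exists_isMinOn hne (hcont 8).continuousOn
  obtain ⟨w, hw, hmax⟩ := hK.exists_isMaxOn hne (hcont 9).continuousOn
  have hscale : ∀ c : Fin 8 → ℝ, c ≠ 0 → ∃ c' : Fin 8 → ℝ, ‖c'‖ = 1 ∧ c = ‖c‖ • c' := by
    intro c hc
    have h : ‖c‖ ≠ 0 := norm_ne_zero_iff.2 hc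
    refine ⟨‖c‖⁻¹ • c, ?_, ?_⟩
    · rw [norm_smul, norm_inv, norm_norm, inv_mul_cancel₀ h]
    · rw [smul_smul, mul_inv_cancel₀ h, one_smul]
  have hz0 : 0 < ∑ i ∈ Finset.range 8, |F (D^[i] z.2) z.1| := by
    refine lt_of_le_of_ne (Finset.sum_nonneg fun i _ => abs_nonneg _) fun h0 => ?_
    have h1 := (Finset.sum_eq_zero_iff_of_nonneg (fun i _ => abs_nonneg _)).1 h0.symm
    have h2 : z.2 = 0 := nd (x := z.1) fun i hi => abs_eq_zero.1 (h1 i (Finset.mem_range.2 (by omega)))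
    have h3 : ‖z.2‖ = 1 := mem_sphere_zero_iff_norm.1 hz.2
    rw [h2, norm_zero] at h3
    exact zero_ne_one h3
  have hw0 : 0 ≤ ∑ i ∈ Finset.range 9, |F (D^[i] w.2) w.1| := Finset.sum_nonneg fun i _ => abs_nonneg _
  refine ⟨_, _ + 1, hz0, add_pos_of_nonneg_of_pos hw0 one_pos, ?_, ?_⟩
  · intro x hx c
    rcases eq_or_ne c 0 with rfl | hc
    · rw [norm_zero, mul_zero]
      exact Finset.sum_nonneg fun i _ => abs_nonneg _
    · obtain ⟨c', h1, h2⟩ := hscale c hc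
      have h3 : ∀ i, |F (D^[i] c) x| = ‖c‖ * |F (D^[i] c') x| := by
        intro i
        conv_lhs => rw [h2]
        rw [Dn_smul, F_smul, abs_mul, abs_of_nonneg (norm_nonneg c)]
      simp only [h3]
      rw [← Finset.mul_sum, mul_comm]
      exact mul_le_mul_of_nonneg_left (hmin (a := (x, c')) ⟨hx, mem_sphere_zero_iff_norm.2 h1⟩) (norm_nonneg _)
  · intro x hx c i hi
    rcases eq_or_ne c 0 with rfl | hc
    · have h := Dn_smul 0 0 i
      rw [zero_smul, zero_smul] at h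
      rw [h, norm_zero, mul_zero]
      have h2 := F_smul 0 0 x
      rw [zero_smul, zero_mul] at h2
      rw [h2, abs_zero]
    · obtain ⟨c', h1, h2⟩ := hscale c hc
      have h3 : |F (D^[i] c) x| = ‖c‖ * |F (D^[i] c') x| := by
        conv_lhs => rw [h2]
        rw [Dn_smul, F_smul, abs_mul, abs_of_nonneg (norm_nonneg c)]
      rw [h3, mul_comm]
      refine mul_le_mul_of_nonneg_right ?_ (norm_nonneg _)
      have h4 := hmax (a := (x, c')) ⟨hx, mem_sphere_zero_iff_norm.2 h1⟩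
      have h5 : |F (D^[i] c') x| ≤ ∑ i ∈ Finset.range 9, |F (D^[i] c') x| :=
        Finset.single_le_sum (f := fun i => |F (D^[i] c') x|) (fun i _ => abs_nonneg _) (Finset.mem_range.2 hi)
      have h6 : ∑ i ∈ Finset.range 9, |F (D^[i] c') x| ≤ ∑ i ∈ Finset.range 9, |F (D^[i] w.2) w.1| := h4
      linarith

/-- no `2^7` separated points with small values in a short interval -/
lemma sep {B κ L : ℝ} (hκ : 0 < κ) (hL : 0 < L)
    (h1 : ∀ x ∈ Icc (-B) B, ∀ c : Fin 8 → ℝ, κ * ‖c‖ ≤ ∑ i ∈ Finset.range 8, |F (D^[i] c) x|)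
    (h2 : ∀ x ∈ Icc (-B) B, ∀ c : Fin 8 → ℝ, ∀ i < 9, |F (D^[i] c) x| ≤ L * ‖c‖)
    {a b : ℝ} (ha : -B ≤ a) (hab : a ≤ b) (hb : b ≤ B) (hl : b - a ≤ κ / (16 * L)) {c : Fin 8 → ℝ} {ρ η : ℝ} (hρ : 0 < ρ)
    (hρ1 : ρ ≤ 1) (hη : 0 ≤ η) {t : ℕ → ℝ} (ht : ∀ j < 2 ^ 7, t j ∈ Icc a b ∧ |F c (t j)| ≤ η)
    (hs : ∀ j, j + 1 < 2 ^ 7 → t j + ρ ≤ t (j + 1)) : κ * ‖c‖ * ρ ^ 7 ≤ 2048 * η := by
  have haB : a ∈ Icc (-B) B := ⟨ha, hab.trans hb⟩
  have key : ∀ i < 8, |F (D^[i] c) a| ≤ η * (2 / ρ) ^ 7 + κ / 16 * ‖c‖ := by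
    intro i hi
    obtain ⟨ξ, hξ, hξ'⟩ := Pool.Agent.Helper59.PQ.rolle i 7 (by omega) (fun i => F (D^[i] c))
      (fun i z => by
        show HasDerivAt (F (D^[i] c)) (F (D^[i + 1] c) z) z
        rw [Function.iterate_succ_apply']
        exact F_der _ _) a b ρ η hρ hη t (fun j hj => ht j hj) hs
    have e1 : |F (D^[i] c) ξ - F (D^[i] c) a| ≤ L * ‖c‖ * (ξ - a) := by
      have h := Convex.norm_image_sub_le_of_norm_hasDerivWithin_le (f := F (D^[i] c)) (f' := fun z => F (D^[i + 1] c) z)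
        (s := Icc (-B) B) (C := L * ‖c‖) (fun z _ => by
          rw [Function.iterate_succ_apply']
          exact (F_der _ _).hasDerivWithinAt) (fun z hz => by
          rw [Real.norm_eq_abs]
          exact h2 z hz c (i + 1) (by omega)) (convex_Icc _ _) haB (y := ξ) ⟨ha.trans hξ.1, hξ.2.trans hb⟩
      rw [Real.norm_eq_abs, Real.norm_eq_abs, abs_of_nonneg (by linarith [hξ.1] : 0 ≤ ξ - a)] at h
      exact h
    have e2 : L * ‖c‖ * (ξ - a) ≤ κ / 16 * ‖c‖ := by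
      have h3 : ξ - a ≤ κ / (16 * L) := by linarith [hξ.2]
      calc L * ‖c‖ * (ξ - a) ≤ L * ‖c‖ * (κ / (16 * L)) :=
            mul_le_mul_of_nonneg_left h3 (mul_nonneg hL.le (norm_nonneg _))
        _ = κ / 16 * ‖c‖ := by field_simp
    have e3 : η * (2 / ρ) ^ i ≤ η * (2 / ρ) ^ 7 := by
      refine mul_le_mul_of_nonneg_left (pow_le_pow_right₀ ?_ (by omega)) hη
      rw [le_div_iff₀ hρ]
      linarith
    have e4 := abs_sub_abs_le_abs_sub (F (D^[i] c) a) (F (D^[i] c) ξ)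
    rw [abs_sub_comm] at e4
    have e5 : |F (D^[i] c) ξ| ≤ η * (2 / ρ) ^ i := hξ'
    linarith
  have hsum : ∑ i ∈ Finset.range 8, |F (D^[i] c) a| ≤ ∑ _i ∈ Finset.range 8, (η * (2 / ρ) ^ 7 + κ / 16 * ‖c‖) :=
    Finset.sum_le_sum fun i hi => key i (Finset.mem_range.1 hi)
  rw [Finset.sum_const, Finset.card_range, nsmul_eq_mul] at hsum
  have h3 := (h1 a haB c).trans hsum
  push_cast at h3
  have h4 : κ * ‖c‖ ≤ 16 * (η * (2 / ρ) ^ 7) := by linarith
  have h5 : κ * ‖c‖ * ρ ^ 7 ≤ 16 * (η * (2 / ρ) ^ 7) * ρ ^ 7 :=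
    mul_le_mul_of_nonneg_right h4 (by positivity)
  refine h5.trans (le_of_eq ?_)
  rw [div_pow]
  field_simp
  ring

/-- measure of the part of a short interval -/
lemma piece {B κ L : ℝ} (hκ : 0 < κ) (hL : 0 < L)
    (h1 : ∀ x ∈ Icc (-B) B, ∀ c : Fin 8 → ℝ, κ * ‖c‖ ≤ ∑ i ∈ Finset.range 8, |F (D^[i] c) x|)
    (h2 : ∀ x ∈ Icc (-B) B, ∀ c : Fin 8 → ℝ, ∀ i < 9, |F (D^[i] c) x| ≤ L * ‖c‖)
    {a b : ℝ} (ha : -B ≤ a) (hab : a ≤ b) (hb : b ≤ B) (hl : b - a ≤ κ / (16 * L)) {c : Fin 8 → ℝ} {ρ ε : ℝ} (hρ : 0 < ρ)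
    (hρ1 : ρ ≤ 1) (hε : 0 < ε) (hρε : 2048 * ε < κ * ‖c‖ * ρ ^ 7) :
    volume {x | x ∈ Icc a b ∧ |F c x| < ε} ≤ ENNReal.ofReal (256 * ρ) := by
  obtain ⟨s, hs1, hs2⟩ := Pool.Agent.Helper59.PQ.cover {x | x ∈ Icc a b ∧ |F c x| < ε} ρ hρ (2 ^ 7) (by norm_num) (by
    rintro ⟨t, ht1, ht2⟩
    have h := sep hκ hL h1 h2 ha hab hb hl hρ hρ1 hε.le (c := c) (t := t)
      (fun j hj => ⟨(ht1 j hj).1, (ht1 j hj).2.le⟩) ht2
    linarith)
  have hsub : {x | x ∈ Icc a b ∧ |F c x| < ε} ⊆ ⋃ x ∈ s, Icc (x - ρ) (x + ρ) := by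
    intro y hy
    obtain ⟨x, hx, hxy⟩ := hs2 y hy
    exact mem_iUnion₂.2 ⟨x, hx, hxy⟩
  calc volume {x | x ∈ Icc a b ∧ |F c x| < ε} ≤ volume (⋃ x ∈ s, Icc (x - ρ) (x + ρ)) := measure_mono hsub
    _ ≤ ∑ x ∈ s, volume (Icc (x - ρ) (x + ρ)) := measure_biUnion_finset_le _ _
    _ = ∑ _x ∈ s, ENNReal.ofReal (2 * ρ) := by
        refine Finset.sum_congr rfl fun x _ => ?_
        rw [Real.volume_Icc]
        congr 1
        ring
    _ = s.card * ENNReal.ofReal (2 * ρ) := by rw [Finset.sum_const, nsmul_eq_mul]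
    _ ≤ (128 : ℝ≥0∞) * ENNReal.ofReal (2 * ρ) := by
        refine mul_le_mul_left ?_ _
        have : s.card ≤ 128 := hs1.trans (by norm_num)
        exact_mod_cast this
    _ = ENNReal.ofReal (256 * ρ) := by
        rw [show (128 : ℝ≥0∞) = ENNReal.ofReal 128 by simp, ← ENNReal.ofReal_mul (by norm_num)]
        congr 1
        ring

/-- **LEMMA 1**, in terms of the coefficient vector -/
theorem sub_vec {B : ℝ} (hB : 0 < B) : ∃ C : ℝ, 0 < C ∧ ∀ (c : Fin 8 → ℝ) (μ ε : ℝ), 0 < μ → μ ≤ ‖c‖ → 0 < ε →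
    volume {x | x ∈ Icc (-B) B ∧ |F c x| < ε} ≤ ENNReal.ofReal (C * (ε / μ) ^ ((1 : ℝ) / 7)) := by
  obtain ⟨κ, L, hκ, hL, h1, h2⟩ := bounds hB.le
  obtain ⟨n, hn⟩ := exists_nat_gt (2 * B * (16 * L) / κ)
  have hn0 : (0 : ℝ) < n := lt_of_le_of_lt (by positivity) hn
  set h : ℝ := 2 * B / n with hh
  have hh0 : 0 < h := by positivity
  have hhl : h ≤ κ / (16 * L) := by
    rw [hh, div_le_div_iff₀ hn0 (by positivity)]
    rw [div_lt_iff₀ hκ] at hn
    linarith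
  set y0 : ℝ := κ / 4096 with hy0
  have hy00 : 0 < y0 := by positivity
  refine ⟨2 * B * (y0 ^ ((1 : ℝ) / 7))⁻¹ + (n + 1) * 256 * (y0 ^ ((1 : ℝ) / 7))⁻¹, by positivity, fun c μ ε hμ hμc hε => ?_⟩
  have hc0 : 0 < ‖c‖ := hμ.trans_le hμc
  have hy : 0 < ε / μ := by positivity
  have hr0 : 0 < (ε / μ) ^ ((1 : ℝ) / 7) := by positivity
  have hy0r : 0 < y0 ^ ((1 : ℝ) / 7) := by positivity
  rcases le_or_gt y0 (ε / μ) with hcase | hcase
  · have e1 : y0 ^ ((1 : ℝ) / 7) ≤ (ε / μ) ^ ((1 : ℝ) / 7) := Real.rpow_le_rpow hy00.le hcase (by norm_num)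
    have e2 : 1 ≤ (y0 ^ ((1 : ℝ) / 7))⁻¹ * (ε / μ) ^ ((1 : ℝ) / 7) := by
      rw [inv_mul_eq_div, le_div_iff₀ hy0r, one_mul]
      exact e1
    calc volume {x | x ∈ Icc (-B) B ∧ |F c x| < ε} ≤ volume (Icc (-B) B) := measure_mono fun x hx => hx.1
      _ = ENNReal.ofReal (2 * B) := by
          rw [Real.volume_Icc]; congr 1; ring
      _ ≤ _ := by
          refine ENNReal.ofReal_le_ofReal ?_
          have e3 : 0 ≤ ((n : ℝ) + 1) * 256 * (y0 ^ ((1 : ℝ) / 7))⁻¹ * (ε / μ) ^ ((1 : ℝ) / 7) := by positivity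
          nlinarith
  · set ρ : ℝ := (ε / μ / y0) ^ ((1 : ℝ) / 7) with hρdef
    have hρ : 0 < ρ := by positivity
    have hρ1 : ρ ≤ 1 := by
      refine Real.rpow_le_one (by positivity) ?_ (by norm_num)
      rw [div_le_one hy00]
      exact hcase.le
    have hρ7 : ρ ^ 7 = ε / μ / y0 := by
      rw [hρdef, ← Real.rpow_natCast, ← Real.rpow_mul (by positivity)]
      norm_num
    have hρε : 2048 * ε < κ * ‖c‖ * ρ ^ 7 := by
      rw [hρ7]
      have e1 : κ * μ * (ε / μ / y0) = 4096 * ε := by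
        rw [hy0]; field_simp
      have e2 : κ * μ * (ε / μ / y0) ≤ κ * ‖c‖ * (ε / μ / y0) :=
        mul_le_mul_of_nonneg_right (mul_le_mul_of_nonneg_left hμc hκ.le) (by positivity)
      linarith
    have hρeq : ρ = (y0 ^ ((1 : ℝ) / 7))⁻¹ * (ε / μ) ^ ((1 : ℝ) / 7) := by
      rw [hρdef, Real.div_rpow hy.le hy00.le, inv_mul_eq_div]
    have hsub : {x | x ∈ Icc (-B) B ∧ |F c x| < ε} ⊆
        ⋃ k ∈ Finset.range (n + 1), {x | x ∈ Icc (-B + k * h) (min B (-B + (k + 1) * h)) ∧ |F c x| < ε} := by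
      rintro x ⟨⟨hx1, hx2⟩, hx3⟩
      have hx4 : 0 ≤ (x + B) / h := div_nonneg (by linarith) hh0.le
      have hf1 := Nat.floor_le hx4
      have hf2 := Nat.lt_floor_add_one ((x + B) / h)
      rw [le_div_iff₀ hh0] at hf1
      rw [div_lt_iff₀ hh0] at hf2
      refine mem_iUnion₂.2 ⟨⌊(x + B) / h⌋₊, ?_, ⟨by linarith, le_min hx2 (by linarith)⟩, hx3⟩
      rw [Finset.mem_range, Nat.lt_succ_iff]
      have e1 : (x + B) / h ≤ n := by
        rw [div_le_iff₀ hh0, hh]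
        field_simp
        linarith
      exact Nat.floor_le_of_le e1
    calc volume {x | x ∈ Icc (-B) B ∧ |F c x| < ε}
        ≤ volume (⋃ k ∈ Finset.range (n + 1), {x | x ∈ Icc (-B + k * h) (min B (-B + (k + 1) * h)) ∧ |F c x| < ε}) :=
          measure_mono hsub
      _ ≤ ∑ k ∈ Finset.range (n + 1), volume {x | x ∈ Icc (-B + k * h) (min B (-B + (k + 1) * h)) ∧ |F c x| < ε} :=
          measure_biUnion_finset_le _ _
      _ ≤ ∑ _k ∈ Finset.range (n + 1), ENNReal.ofReal (256 * ρ) := by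
          refine Finset.sum_le_sum fun k hk => ?_
          have hk' : (k : ℝ) ≤ n := by exact_mod_cast Nat.lt_succ_iff.1 (Finset.mem_range.1 hk)
          have hkh : (k : ℝ) * h ≤ 2 * B := by
            calc (k : ℝ) * h ≤ n * h := mul_le_mul_of_nonneg_right hk' hh0.le
              _ = 2 * B := by rw [hh]; field_simp
          have hk0 : 0 ≤ (k : ℝ) * h := by positivity
          refine piece hκ hL h1 h2 (by linarith) (le_min (by linarith) (by linarith)) (min_le_left _ _) ?_ hρ hρ1 hε hρε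
          have := min_le_right B (-B + ((k : ℝ) + 1) * h)
          linarith
      _ = ENNReal.ofReal ((n + 1) * 256 * ρ) := by
          rw [Finset.sum_const, Finset.card_range, nsmul_eq_mul, ← ENNReal.ofReal_natCast,
            ← ENNReal.ofReal_mul (by positivity)]
          congr 1
          push_cast
          ring
      _ ≤ _ := by
          refine ENNReal.ofReal_le_ofReal ?_
          rw [hρeq]
          have e3 : 0 ≤ 2 * B * (y0 ^ ((1 : ℝ) / 7))⁻¹ * (ε / μ) ^ ((1 : ℝ) / 7) := by positivity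
          nlinarith

/-- **LEMMA 1** -/
theorem sub_meas {B : ℝ} (hB : 0 < B) : ∃ C : ℝ, 0 < C ∧ ∀ (p q : Fin 4 → ℝ) (μ : ℝ), 0 < μ →
    (∃ x ∈ Icc (-B) B, μ ≤ |∑ i, p i * x ^ (i : ℕ)|) → ∀ ε : ℝ, 0 < ε →
    volume {x | x ∈ Icc (-B) B ∧
      |(∑ i, p i * x ^ (i : ℕ)) * cos (2 * π * x) + (∑ i, q i * x ^ (i : ℕ)) * sin (2 * π * x)| < ε} ≤
      ENNReal.ofReal (C * (ε / μ) ^ ((1 : ℝ) / 7)) := by
  obtain ⟨C, hC, h⟩ := sub_vec hB
  set E : ℝ := 1 + B + B ^ 2 + B ^ 3 with hE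
  have hE0 : 0 < E := by positivity
  refine ⟨C * E ^ ((1 : ℝ) / 7), by positivity, fun p q μ hμ hx ε hε => ?_⟩
  obtain ⟨x, ⟨hx1, hx2⟩, hx3⟩ := hx
  set c : Fin 8 → ℝ := ![p 0, p 1, p 2, p 3, q 0, q 1, q 2, q 3] with hc
  have hF : ∀ z : ℝ, (∑ i, p i * z ^ (i : ℕ)) * cos (2 * π * z) + (∑ i, q i * z ^ (i : ℕ)) * sin (2 * π * z) = F c z := by
    intro z
    simp only [F, hc, Fin.sum_univ_four, Matrix.cons_val]
    simp
  have hcn : ∀ i : Fin 8, |c i| ≤ ‖c‖ := fun i => norm_le_pi_norm c i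
  have hxB : |x| ≤ B := abs_le.2 ⟨hx1, hx2⟩
  have hnorm : μ / E ≤ ‖c‖ := by
    rw [div_le_iff₀ hE0]
    refine hx3.trans ?_
    have e1 : |∑ i, p i * x ^ (i : ℕ)| ≤ ∑ i : Fin 4, |p i| * |x| ^ (i : ℕ) := by
      refine (Finset.abs_sum_le_sum_abs _ _).trans (Finset.sum_le_sum fun i _ => ?_)
      rw [abs_mul, abs_pow]
    have e2 : ∀ i : Fin 4, |p i| ≤ ‖c‖ := by
      intro i
      fin_cases i
      · exact hcn 0
      · exact hcn 1
      · exact hcn 2
      · exact hcn 3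
    have e3 : ∑ i : Fin 4, |p i| * |x| ^ (i : ℕ) ≤ ∑ i : Fin 4, ‖c‖ * B ^ (i : ℕ) :=
      Finset.sum_le_sum fun i _ => mul_le_mul (e2 i) (pow_le_pow_left₀ (abs_nonneg _) hxB _) (by positivity)
        (norm_nonneg _)
    refine (e1.trans e3).trans (le_of_eq ?_)
    simp only [Fin.sum_univ_four, hE]
    simp
    ring
  have h3 := h c (μ / E) ε (by positivity) hnorm hε
  simp only [hF]
  refine h3.trans (ENNReal.ofReal_le_ofReal (le_of_eq ?_))
  rw [show ε / (μ / E) = E * (ε / μ) by field_simp, Real.mul_rpow hE0.le (by positivity)]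
  ring

end Pool.Agent.Helper59.QR
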